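import Mathlib

/-!
# MP_b8a264_an: the gaussian-extremizable Brascamp-Lieb data are not dense

Counterexample with `d = 3`, `k = 3`, `(d_1, d_2, d_3) = (1, 1, 2)`.
-/

set_option autoImplicit false

open MeasureTheory Matrix
open scoped ENNReal

namespace Pool.Agent.Results.MP_b8a264_an.NotDense

/-- A Brascamp-Lieb datum: `B i` is the matrix of a linear map of `ℝ^d` onto `ℝ^(n i)`, and `c i > 0`. -/
structure Datum (k d : ℕ) (n : Fin k → ℕ) where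
  B : ∀ i : Fin k, Matrix (Fin (n i)) (Fin d) ℝ
  c : Fin k → ℝ
  onto : ∀ i, Function.Surjective (fun x : Fin d → ℝ => B i *ᵥ x)
  pos : ∀ i, 0 < c i

variable {k d : ℕ} {n : Fin k → ℕ}

/-- Feasible: the Brascamp-Lieb inequality holds with a finite constant. -/
def Feasible (D : Datum k d n) : Prop :=
  ∃ C : ℝ≥0∞, C ≠ ∞ ∧ ∀ f : ∀ i : Fin k, (Fin (n i) → ℝ) → ℝ≥0∞,
    (∀ i, Measurable (f i)) → (∀ i, ∫⁻ y, f i y ≠ ∞) →
    ∫⁻ x : Fin d → ℝ, ∏ i, f i (D.B i *ᵥ x) ^ D.c i ≤ C * ∏ i, (∫⁻ y, f i y) ^ D.c i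

/-- the gaussian quotient `(∏ (det A_i)^(c_i) / det (∑ c_i B_iᵀ A_i B_i)) ^ (1/2)` -/
noncomputable def gaussQ (D : Datum k d n) (A : ∀ i : Fin k, Matrix (Fin (n i)) (Fin (n i)) ℝ) : ℝ :=
  Real.sqrt ((∏ i, (A i).det ^ D.c i) / (∑ i, D.c i • ((D.B i)ᵀ * A i * D.B i)).det)

/-- Gaussian extremizable: the supremum of the gaussian quotient over all tuples of positive
definite matrices is finite and attained. -/
def GaussianExtremizable (D : Datum k d n) : Prop :=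
  ∃ A : ∀ i : Fin k, Matrix (Fin (n i)) (Fin (n i)) ℝ, (∀ i, (A i).PosDef) ∧
    ∀ A' : ∀ i : Fin k, Matrix (Fin (n i)) (Fin (n i)) ℝ, (∀ i, (A' i).PosDef) →
      gaussQ D A' ≤ gaussQ D A

/-- the dimensions `1, 1, 2` -/
abbrev dims : Fin 3 → ℕ := ![1, 1, 2]

/-- the determinant formula -/
theorem det_formula (b0 b1 b2 e0 e1 e2 : ℝ) (M : Matrix (Fin 2) (Fin 3) ℝ) (α β γ : ℝ)
    (P : Matrix (Fin 2) (Fin 2) ℝ) (hP : P 0 1 = P 1 0) :
    (!![α * b0 * b0 + β * e0 * e0, α * b0 * b1 + β * e0 * e1, α * b0 * b2 + β * e0 * e2;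
        α * b1 * b0 + β * e1 * e0, α * b1 * b1 + β * e1 * e1, α * b1 * b2 + β * e1 * e2;
        α * b2 * b0 + β * e2 * e0, α * b2 * b1 + β * e2 * e1, α * b2 * b2 + β * e2 * e2]
      + γ • (Mᵀ * P * M)).det =
    (α * (b0 * (M 0 1 * M 1 2 - M 0 2 * M 1 1) + b1 * (M 0 2 * M 1 0 - M 0 0 * M 1 2) +
        b2 * (M 0 0 * M 1 1 - M 0 1 * M 1 0)) ^ 2 +
      β * (e0 * (M 0 1 * M 1 2 - M 0 2 * M 1 1) + e1 * (M 0 2 * M 1 0 - M 0 0 * M 1 2) +
        e2 * (M 0 0 * M 1 1 - M 0 1 * M 1 0)) ^ 2) * (γ ^ 2 * P.det) +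
    α * β * γ * ((![M 0 0 * (b1 * e2 - b2 * e1) + M 0 1 * (b2 * e0 - b0 * e2) + M 0 2 * (b0 * e1 - b1 * e0),
      M 1 0 * (b1 * e2 - b2 * e1) + M 1 1 * (b2 * e0 - b0 * e2) + M 1 2 * (b0 * e1 - b1 * e0)]) ⬝ᵥ
      (P *ᵥ ![M 0 0 * (b1 * e2 - b2 * e1) + M 0 1 * (b2 * e0 - b0 * e2) + M 0 2 * (b0 * e1 - b1 * e0),
      M 1 0 * (b1 * e2 - b2 * e1) + M 1 1 * (b2 * e0 - b0 * e2) + M 1 2 * (b0 * e1 - b1 * e0)])) := by
  rw [det_fin_three, det_fin_two]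
  simp only [Matrix.add_apply, Matrix.smul_apply, Matrix.mul_apply, Matrix.transpose_apply,
    Fin.sum_univ_two, smul_eq_mul, dotProduct, mulVec, Matrix.of_apply, Matrix.cons_val', Matrix.cons_val_zero,
    Matrix.cons_val_one, Matrix.cons_val, Matrix.cons_val_fin_one]
  rw [hP]
  ring

/-- rank one pieces -/
theorem rank_one (X : Matrix (Fin 1) (Fin 3) ℝ) (Y : Matrix (Fin 1) (Fin 1) ℝ) (i j : Fin 3) :
    (Xᵀ * Y * X) i j = X 0 i * Y 0 0 * X 0 j := by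
  simp [Matrix.mul_apply]

/-- the strict improvement, for separate matrices -/
theorem improve (X0 X1 : Matrix (Fin 1) (Fin 3) ℝ) (M : Matrix (Fin 2) (Fin 3) ℝ)
    (Y0 Y1 : Matrix (Fin 1) (Fin 1) ℝ) (P : Matrix (Fin 2) (Fin 2) ℝ) (c0 c1 c2 : ℝ)
    (h0 : 0 < c0) (h1 : 0 < c1) (h2 : 0 < c2) (hY0 : Y0.PosDef) (hY1 : Y1.PosDef) (hP : P.PosDef)
    (hz : 0 < M 1 0 * (X0 0 1 * X1 0 2 - X0 0 2 * X1 0 1) + M 1 1 * (X0 0 2 * X1 0 0 - X0 0 0 * X1 0 2) +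
      M 1 2 * (X0 0 0 * X1 0 1 - X0 0 1 * X1 0 0)) :
    ∃ P' : Matrix (Fin 2) (Fin 2) ℝ, P'.PosDef ∧ P'.det = P.det ∧
      0 < (c0 • (X0ᵀ * Y0 * X0) + c1 • (X1ᵀ * Y1 * X1) + c2 • (Mᵀ * P' * M)).det ∧
      (c0 • (X0ᵀ * Y0 * X0) + c1 • (X1ᵀ * Y1 * X1) + c2 • (Mᵀ * P' * M)).det <
        (c0 • (X0ᵀ * Y0 * X0) + c1 • (X1ᵀ * Y1 * X1) + c2 • (Mᵀ * P * M)).det := by
  set z0 : ℝ := M 0 0 * (X0 0 1 * X1 0 2 - X0 0 2 * X1 0 1) + M 0 1 * (X0 0 2 * X1 0 0 - X0 0 0 * X1 0 2) +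
      M 0 2 * (X0 0 0 * X1 0 1 - X0 0 1 * X1 0 0) with hz0
  set z1 : ℝ := M 1 0 * (X0 0 1 * X1 0 2 - X0 0 2 * X1 0 1) + M 1 1 * (X0 0 2 * X1 0 0 - X0 0 0 * X1 0 2) +
      M 1 2 * (X0 0 0 * X1 0 1 - X0 0 1 * X1 0 0) with hz1
  set z : Fin 2 → ℝ := ![z0, z1] with hzd
  have hzne : z ≠ 0 := by
    intro h
    have := congrFun h 1
    simp only [hzd, Matrix.cons_val_one, Matrix.cons_val_fin_one, Pi.zero_apply] at this
    exact hz.ne' this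
  have ha : 0 < Y0 0 0 := hY0.diag_pos
  have ha' : 0 < Y1 0 0 := hY1.diag_pos
  -- the matrix `L` halves `z` and has determinant one
  set L : Matrix (Fin 2) (Fin 2) ℝ := !![2, -(3 / 2) * z0 / z1; 0, 1 / 2] with hL
  have hLz : L *ᵥ z = (1 / 2 : ℝ) • z := by
    ext i
    fin_cases i
    · simp [hL, hzd, mulVec, dotProduct, Fin.sum_univ_two]
      field_simp
      ring
    · simp [hL, hzd, mulVec, dotProduct, Fin.sum_univ_two]
  have hLdet : L.det = 1 := by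
    rw [hL, det_fin_two_of]
    ring
  have hdet : (Lᵀ * P * L).det = P.det := by
    rw [det_mul, det_mul, det_transpose, hLdet]
    ring
  have hPd : (Lᵀ * P * L).PosDef := by
    have hinj : Function.Injective L.mulVec := by
      intro u v huv
      have h3 := Matrix.eq_zero_of_mulVec_eq_zero (M := L) (v := u - v) (by rw [hLdet]; exact one_ne_zero)
        (by rw [mulVec_sub]; exact sub_eq_zero.2 huv)
      exact sub_eq_zero.1 h3
    have := hP.conjTranspose_mul_mul_same hinj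
    rwa [conjTranspose_eq_transpose_of_trivial] at this
  have hsym : ∀ Q : Matrix (Fin 2) (Fin 2) ℝ, Q.PosDef → Q 0 1 = Q 1 0 := by
    intro Q hQ
    have h3 := hQ.isHermitian.apply 1 0
    simpa using h3
  have hS : ∀ Q : Matrix (Fin 2) (Fin 2) ℝ, Q.PosDef →
      (c0 • (X0ᵀ * Y0 * X0) + c1 • (X1ᵀ * Y1 * X1) + c2 • (Mᵀ * Q * M)).det =
      (c0 * Y0 0 0 * (X0 0 0 * (M 0 1 * M 1 2 - M 0 2 * M 1 1) + X0 0 1 * (M 0 2 * M 1 0 - M 0 0 * M 1 2) +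
        X0 0 2 * (M 0 0 * M 1 1 - M 0 1 * M 1 0)) ^ 2 +
      c1 * Y1 0 0 * (X1 0 0 * (M 0 1 * M 1 2 - M 0 2 * M 1 1) + X1 0 1 * (M 0 2 * M 1 0 - M 0 0 * M 1 2) +
        X1 0 2 * (M 0 0 * M 1 1 - M 0 1 * M 1 0)) ^ 2) * (c2 ^ 2 * Q.det) +
      (c0 * Y0 0 0) * (c1 * Y1 0 0) * c2 * (z ⬝ᵥ (Q *ᵥ z)) := by
    intro Q hQ
    have h3 := det_formula (X0 0 0) (X0 0 1) (X0 0 2) (X1 0 0) (X1 0 1) (X1 0 2) M (c0 * Y0 0 0)
      (c1 * Y1 0 0) c2 Q (hsym Q hQ)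
    rw [hzd, hz0, hz1, ← h3]
    congr 2
    ext i j
    rw [Matrix.add_apply, Matrix.smul_apply, Matrix.smul_apply, rank_one, rank_one]
    fin_cases i <;> fin_cases j <;> simp <;> ring
  have hzP : 0 < z ⬝ᵥ (P *ᵥ z) := by
    have := hP.dotProduct_mulVec_pos hzne
    simpa using this
  have hzP' : z ⬝ᵥ ((Lᵀ * P * L) *ᵥ z) = (z ⬝ᵥ (P *ᵥ z)) / 4 := by
    rw [← mulVec_mulVec, ← mulVec_mulVec, hLz, dotProduct_mulVec, vecMul_transpose, hLz, mulVec_smul,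
      smul_dotProduct, dotProduct_smul, smul_eq_mul, smul_eq_mul]
    ring
  have hdP : 0 < P.det := hP.det_pos
  have hK : 0 < (c0 * Y0 0 0) * (c1 * Y1 0 0) * c2 := by positivity
  refine ⟨Lᵀ * P * L, hPd, hdet, ?_, ?_⟩
  · rw [hS _ hPd, hzP', hdet]
    refine add_pos_of_nonneg_of_pos ?_ (mul_pos hK (by linarith))
    positivity
  · rw [hS _ hPd, hS _ hP, hzP', hdet]
    have h3 : (c0 * Y0 0 0) * (c1 * Y1 0 0) * c2 * (z ⬝ᵥ (P *ᵥ z) / 4) <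
        (c0 * Y0 0 0) * (c1 * Y1 0 0) * c2 * (z ⬝ᵥ (P *ᵥ z)) :=
      mul_lt_mul_of_pos_left (by linarith) hK
    linarith

/-- the three matrices of a datum with dimensions `1, 1, 2` -/
def mat0 (D : Datum 3 3 dims) : Matrix (Fin 1) (Fin 3) ℝ := D.B 0
/-- see `mat0` -/
def mat1 (D : Datum 3 3 dims) : Matrix (Fin 1) (Fin 3) ℝ := D.B 1
/-- see `mat0` -/
def mat2 (D : Datum 3 3 dims) : Matrix (Fin 2) (Fin 3) ℝ := D.B 2

/-- data close to the special one are not gaussian extremizable -/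
theorem not_extremizable (D : Datum 3 3 dims)
    (hz : 0 < mat2 D 1 0 * (mat0 D 0 1 * mat1 D 0 2 - mat0 D 0 2 * mat1 D 0 1) +
      mat2 D 1 1 * (mat0 D 0 2 * mat1 D 0 0 - mat0 D 0 0 * mat1 D 0 2) +
      mat2 D 1 2 * (mat0 D 0 0 * mat1 D 0 1 - mat0 D 0 1 * mat1 D 0 0)) :
    ¬ GaussianExtremizable D := by
  rintro ⟨A, hA, hmax⟩
  obtain ⟨P', hP', hdet, hpos, hlt⟩ := improve (mat0 D) (mat1 D) (mat2 D) (A 0) (A 1) (A 2) (D.c 0)
    (D.c 1) (D.c 2) (D.pos 0) (D.pos 1) (D.pos 2) (hA 0) (hA 1) (hA 2) hz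
  obtain ⟨A', h0, h1, h2⟩ : ∃ A' : ∀ i : Fin 3, Matrix (Fin (dims i)) (Fin (dims i)) ℝ,
      A' 0 = A 0 ∧ A' 1 = A 1 ∧ A' 2 = P' :=
    ⟨Function.update A 2 P', Function.update_of_ne (by decide) _ _,
      Function.update_of_ne (by decide) _ _, Function.update_self _ _ _⟩
  have hA' : ∀ i, (A' i).PosDef := by
    intro i
    fin_cases i
    · show (A' 0).PosDef
      rw [h0]
      exact hA 0
    · show (A' 1).PosDef
      rw [h1]
      exact hA 1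
    · show (A' 2).PosDef
      rw [h2]
      exact hP'
  have h3 := hmax _ hA'
  unfold gaussQ at h3
  rw [Fin.prod_univ_three, Fin.prod_univ_three, Fin.sum_univ_three, Fin.sum_univ_three,
    h0, h1, h2] at h3
  have h4 : 0 < (A 0).det ^ D.c 0 * (A 1).det ^ D.c 1 * (A 2).det ^ D.c 2 := by
    have e0 := (hA 0).det_pos
    have e1 := (hA 1).det_pos
    have e2 := (hA 2).det_pos
    positivity
  have hdet' : Matrix.det (n := Fin (dims 2)) P' = (A 2).det := hdet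
  rw [hdet'] at h3
  refine absurd h3 (not_le.2 (Real.sqrt_lt_sqrt (div_nonneg h4.le (hpos.trans hlt).le) ?_))
  exact div_lt_div_of_pos_left h4 hpos hlt

/-- the special datum: `B_1 x = x_1`, `B_2 x = x_1 + x_2`, `B_3 x = (x_2, x_3)`, exponents `1/2, 1/2, 1` -/
noncomputable def special : Datum 3 3 dims where
  B := fun i => match i with
    | 0 => (!![1, 0, 0] : Matrix (Fin 1) (Fin 3) ℝ)
    | 1 => (!![1, 1, 0] : Matrix (Fin 1) (Fin 3) ℝ)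
    | 2 => (!![0, 1, 0; 0, 0, 1] : Matrix (Fin 2) (Fin 3) ℝ)
  c := ![1 / 2, 1 / 2, 1]
  onto := by
    intro i
    fin_cases i
    · intro (y : Fin 1 → ℝ)
      refine ⟨![y 0, 0, 0], ?_⟩
      show (!![1, 0, 0] : Matrix (Fin 1) (Fin 3) ℝ) *ᵥ ![y 0, 0, 0] = y
      ext j
      fin_cases j
      simp [mulVec, dotProduct, Fin.sum_univ_three]
    · intro (y : Fin 1 → ℝ)
      refine ⟨![y 0, 0, 0], ?_⟩
      show (!![1, 1, 0] : Matrix (Fin 1) (Fin 3) ℝ) *ᵥ ![y 0, 0, 0] = y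
      ext j
      fin_cases j
      simp [mulVec, dotProduct, Fin.sum_univ_three]
    · intro (y : Fin 2 → ℝ)
      refine ⟨![0, y 0, y 1], ?_⟩
      show (!![0, 1, 0; 0, 0, 1] : Matrix (Fin 2) (Fin 3) ℝ) *ᵥ ![0, y 0, y 1] = y
      ext j
      fin_cases j <;> simp [mulVec, dotProduct, Fin.sum_univ_three]
  pos := by
    intro i
    fin_cases i <;> simp

/-- Hölder's inequality in one variable, with values on `ℝ^1` -/
theorem holder1 (f g : (Fin 1 → ℝ) → ℝ≥0∞) (hf : Measurable f) (hg : Measurable g) (s : ℝ) :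
    ∫⁻ t : ℝ, f (fun _ => t) ^ (1 / 2 : ℝ) * g (fun _ => t + s) ^ (1 / 2 : ℝ) ≤
      (∫⁻ y, f y) ^ (1 / 2 : ℝ) * (∫⁻ y, g y) ^ (1 / 2 : ℝ) := by
  have hmp := volume_preserving_funUnique (Fin 1) ℝ
  have hm1 : Measurable fun t : ℝ => (fun _ : Fin 1 => t) := measurable_pi_lambda _ fun _ => measurable_id
  have hF : ∀ h : (Fin 1 → ℝ) → ℝ≥0∞, Measurable h → ∫⁻ t : ℝ, h (fun _ => t) = ∫⁻ y, h y := by
    intro h hh
    have h0 := hmp.lintegral_comp (f := fun t : ℝ => h (fun _ => t)) (hh.comp hm1)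
    rw [← h0]
    refine lintegral_congr fun y => ?_
    show h (fun _ => y default) = h y
    congr 1
    ext j
    rw [Subsingleton.elim j default]
  have hm2 : Measurable fun t : ℝ => (fun _ : Fin 1 => t + s) :=
    measurable_pi_lambda _ fun _ => measurable_id.add_const s
  have h1 := ENNReal.lintegral_mul_le_Lp_mul_Lq (volume : Measure ℝ)
    (p := 2) (q := 2) (Real.HolderConjugate.two_two)
    (f := fun t => f (fun _ => t) ^ (1 / 2 : ℝ)) (g := fun t => g (fun _ => t + s) ^ (1 / 2 : ℝ))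
    ((hf.comp hm1).pow_const _).aemeasurable ((hg.comp hm2).pow_const _).aemeasurable
  have e : ∀ a : ℝ≥0∞, (a ^ (1 / 2 : ℝ)) ^ (2 : ℝ) = a := by
    intro a
    rw [← ENNReal.rpow_mul]
    norm_num
  simp only [Pi.mul_apply, e] at h1
  refine h1.trans (le_of_eq ?_)
  rw [hF f hf]
  congr 2
  rw [← hF g hg]
  exact lintegral_add_right_eq_self (fun t => g (fun _ => t)) s

/-- the inequality, with the functions as separate arguments -/
theorem bl3 (g0 g1 : (Fin 1 → ℝ) → ℝ≥0∞) (g2 : (Fin 2 → ℝ) → ℝ≥0∞) (hf0 : Measurable g0)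
    (hf1 : Measurable g1) (hf2 : Measurable g2) :
    ∫⁻ x : Fin 3 → ℝ, g0 (fun _ => x 0) ^ (1 / 2 : ℝ) * g1 (fun _ => x 0 + x 1) ^ (1 / 2 : ℝ) *
        g2 ![x 1, x 2] ≤
      (∫⁻ y, g0 y) ^ (1 / 2 : ℝ) * (∫⁻ y, g1 y) ^ (1 / 2 : ℝ) * (∫⁻ y, g2 y) ^ (1 : ℝ) := by
  calc ∫⁻ x : Fin 3 → ℝ, g0 (fun _ => x 0) ^ (1 / 2 : ℝ) * g1 (fun _ => x 0 + x 1) ^ (1 / 2 : ℝ) *
        g2 ![x 1, x 2]
      = ∫⁻ p : ℝ × (Fin 2 → ℝ), g0 (fun _ => p.1) ^ (1 / 2 : ℝ) *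
          g1 (fun _ => p.1 + p.2 0) ^ (1 / 2 : ℝ) * g2 p.2 := by
        have hmp := volume_preserving_piFinSuccAbove (fun _ : Fin 3 => ℝ) 0
        rw [← hmp.lintegral_comp_emb (MeasurableEquiv.measurableEmbedding _)]
        refine lintegral_congr fun x => ?_
        have e2 : (fun j : Fin 2 => x (Fin.succAbove 0 j)) = ![x 1, x 2] := by
          ext j
          fin_cases j <;> rfl
        show _ = g0 (fun _ => x 0) ^ (1 / 2 : ℝ) * g1 (fun _ => x 0 + x (Fin.succAbove 0 0)) ^ (1 / 2 : ℝ) *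
          g2 (fun j : Fin 2 => x (Fin.succAbove 0 j))
        rw [e2]
        rfl
    _ = ∫⁻ y : Fin 2 → ℝ, ∫⁻ t : ℝ, g0 (fun _ => t) ^ (1 / 2 : ℝ) *
          g1 (fun _ => t + y 0) ^ (1 / 2 : ℝ) * g2 y := by
        have hm0 : Measurable fun p : ℝ × (Fin 2 → ℝ) => (fun _ : Fin 1 => p.1) :=
          measurable_pi_lambda _ fun _ => measurable_fst
        have hm1 : Measurable fun p : ℝ × (Fin 2 → ℝ) => (fun _ : Fin 1 => p.1 + p.2 0) :=
          measurable_pi_lambda _ fun _ => measurable_fst.add ((measurable_pi_apply 0).comp measurable_snd)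
        rw [Measure.volume_eq_prod, lintegral_prod_symm]
        exact (((hf0.comp hm0).pow_const _).mul ((hf1.comp hm1).pow_const _)).mul
          (hf2.comp measurable_snd) |>.aemeasurable
    _ ≤ ∫⁻ y : Fin 2 → ℝ, ((∫⁻ y, g0 y) ^ (1 / 2 : ℝ) * (∫⁻ y, g1 y) ^ (1 / 2 : ℝ)) * g2 y := by
        refine lintegral_mono fun y => ?_
        have hm1 : Measurable fun t : ℝ => (fun _ : Fin 1 => t) :=
          measurable_pi_lambda _ fun _ => measurable_id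
        have hm2 : Measurable fun t : ℝ => (fun _ : Fin 1 => t + y 0) :=
          measurable_pi_lambda _ fun _ => measurable_id.add_const _
        have hm3 : Measurable fun t : ℝ => g0 (fun _ => t) ^ (1 / 2 : ℝ) *
            g1 (fun _ => t + y 0) ^ (1 / 2 : ℝ) :=
          ((hf0.comp hm1).pow_const _).mul ((hf1.comp hm2).pow_const _)
        show ∫⁻ t : ℝ, g0 (fun _ => t) ^ (1 / 2 : ℝ) * g1 (fun _ => t + y 0) ^ (1 / 2 : ℝ) * g2 y ≤ _
        rw [lintegral_mul_const _ hm3]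
        gcongr
        exact holder1 g0 g1 hf0 hf1 (y 0)
    _ = (∫⁻ y, g0 y) ^ (1 / 2 : ℝ) * (∫⁻ y, g1 y) ^ (1 / 2 : ℝ) * (∫⁻ y, g2 y) ^ (1 : ℝ) := by
        rw [lintegral_const_mul _ hf2, ENNReal.rpow_one]

theorem feasible_special : Feasible special := by
  refine ⟨1, ENNReal.one_ne_top, fun f hf _ => ?_⟩
  rw [one_mul, Fin.prod_univ_three]
  have hint : ∀ x : Fin 3 → ℝ, ∏ i, f i (special.B i *ᵥ x) ^ special.c i =
      (f 0 : (Fin 1 → ℝ) → ℝ≥0∞) (fun _ => x 0) ^ (1 / 2 : ℝ) *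
        (f 1 : (Fin 1 → ℝ) → ℝ≥0∞) (fun _ => x 0 + x 1) ^ (1 / 2 : ℝ) *
        (f 2 : (Fin 2 → ℝ) → ℝ≥0∞) ![x 1, x 2] := by
    intro x
    rw [Fin.prod_univ_three]
    have a0 : special.B 0 *ᵥ x = (fun _ : Fin 1 => x 0) := by
      show (!![1, 0, 0] : Matrix (Fin 1) (Fin 3) ℝ) *ᵥ x = _
      ext j
      fin_cases j
      simp [mulVec, dotProduct, Fin.sum_univ_three]
    have a1 : special.B 1 *ᵥ x = (fun _ : Fin 1 => x 0 + x 1) := by
      show (!![1, 1, 0] : Matrix (Fin 1) (Fin 3) ℝ) *ᵥ x = _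
      ext j
      fin_cases j
      simp [mulVec, dotProduct, Fin.sum_univ_three]
    have a2 : special.B 2 *ᵥ x = (![x 1, x 2] : Fin 2 → ℝ) := by
      show (!![0, 1, 0; 0, 0, 1] : Matrix (Fin 2) (Fin 3) ℝ) *ᵥ x = _
      ext j
      fin_cases j <;> simp [mulVec, dotProduct, Fin.sum_univ_three]
    have b0 : special.c 0 = 1 / 2 := rfl
    have b1 : special.c 1 = 1 / 2 := rfl
    have b2 : special.c 2 = 1 := rfl
    rw [a0, a1, a2, b0, b1, b2, ENNReal.rpow_one]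
    rfl
  refine (lintegral_congr hint).trans_le ?_
  exact bl3 (f 0) (f 1) (f 2) (hf 0) (hf 1) (hf 2)

/-- The answer to Q1 is no: with `k = d = 3` and dimensions `1, 1, 2` there is a feasible
Brascamp-Lieb datum and an `ε > 0` such that no datum within `ε` (all matrix entries and all
exponents) is gaussian extremizable. -/
theorem result : ∃ D : Datum 3 3 dims, Feasible D ∧ ∃ ε : ℝ, 0 < ε ∧ ∀ D' : Datum 3 3 dims,
    (∀ i j l, |D'.B i j l - D.B i j l| < ε) → (∀ i, |D'.c i - D.c i| < ε) →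
      ¬ GaussianExtremizable D' := by
  refine ⟨special, feasible_special, 1 / 10, by norm_num, fun D' hB _ => not_extremizable D' ?_⟩
  have h00 : |mat0 D' 0 0 - 1| < 1 / 10 := hB 0 (0 : Fin 1) 0
  have h01 : |mat0 D' 0 1 - 0| < 1 / 10 := hB 0 (0 : Fin 1) 1
  have h02 : |mat0 D' 0 2 - 0| < 1 / 10 := hB 0 (0 : Fin 1) 2
  have h10 : |mat1 D' 0 0 - 1| < 1 / 10 := hB 1 (0 : Fin 1) 0
  have h11 : |mat1 D' 0 1 - 1| < 1 / 10 := hB 1 (0 : Fin 1) 1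
  have h12 : |mat1 D' 0 2 - 0| < 1 / 10 := hB 1 (0 : Fin 1) 2
  have h20 : |mat2 D' 1 0 - 0| < 1 / 10 := hB 2 (1 : Fin 2) 0
  have h21 : |mat2 D' 1 1 - 0| < 1 / 10 := hB 2 (1 : Fin 2) 1
  have h22 : |mat2 D' 1 2 - 1| < 1 / 10 := hB 2 (1 : Fin 2) 2
  rw [abs_lt] at h00 h01 h02 h10 h11 h12 h20 h21 h22
  set b0 := mat0 D' 0 0
  set b1 := mat0 D' 0 1
  set b2 := mat0 D' 0 2
  set e0 := mat1 D' 0 0
  set e1 := mat1 D' 0 1
  set e2 := mat1 D' 0 2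
  set m0 := mat2 D' 1 0
  set m1 := mat2 D' 1 1
  set m2 := mat2 D' 1 2
  have habs : ∀ {x y p q : ℝ}, |x| ≤ p → |y| ≤ q → |x * y| ≤ p * q := by
    intro x y p q hx hy
    rw [abs_mul]
    exact mul_le_mul hx hy (abs_nonneg _) ((abs_nonneg _).trans hx)
  have B1 : |b1| ≤ 1 / 10 := abs_le.2 ⟨by linarith [h01.1], by linarith [h01.2]⟩
  have B2 : |b2| ≤ 1 / 10 := abs_le.2 ⟨by linarith [h02.1], by linarith [h02.2]⟩
  have E2 : |e2| ≤ 1 / 10 := abs_le.2 ⟨by linarith [h12.1], by linarith [h12.2]⟩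
  have E1 : |e1| ≤ 11 / 10 := abs_le.2 ⟨by linarith [h11.1], by linarith [h11.2]⟩
  have E0 : |e0| ≤ 11 / 10 := abs_le.2 ⟨by linarith [h10.1], by linarith [h10.2]⟩
  have B0 : |b0| ≤ 11 / 10 := abs_le.2 ⟨by linarith [h00.1], by linarith [h00.2]⟩
  have M0 : |m0| ≤ 1 / 10 := abs_le.2 ⟨by linarith [h20.1], by linarith [h20.2]⟩
  have M1 : |m1| ≤ 1 / 10 := abs_le.2 ⟨by linarith [h21.1], by linarith [h21.2]⟩
  have p1 := abs_le.1 (habs B1 E2)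
  have p2 := abs_le.1 (habs B2 E1)
  have p3 := abs_le.1 (habs B2 E0)
  have p4 := abs_le.1 (habs B0 E2)
  have p5 := abs_le.1 (habs B1 E0)
  have w1 : |b1 * e2 - b2 * e1| ≤ 3 / 10 := abs_le.2 ⟨by linarith [p1.1, p2.2], by linarith [p1.2, p2.1]⟩
  have w2 : |b2 * e0 - b0 * e2| ≤ 3 / 10 := abs_le.2 ⟨by linarith [p3.1, p4.2], by linarith [p3.2, p4.1]⟩
  have w3 : 6 / 10 ≤ b0 * e1 - b1 * e0 := by
    have : 81 / 100 ≤ b0 * e1 := by nlinarith [h00.1, h11.1]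
    linarith [p5.2]
  have q1 := abs_le.1 (habs M0 w1)
  have q2 := abs_le.1 (habs M1 w2)
  have q3 : 54 / 100 ≤ m2 * (b0 * e1 - b1 * e0) := by nlinarith [h22.1, w3]
  linarith [q1.1, q2.1]

end Pool.Agent.Results.MP_b8a264_an.NotDense
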